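import Mathlib

/-!
# Invariant idempotent matrices lift to the `p`-adic integers
-/

set_option autoImplicit false

namespace Pool.Agent.W_0649d4_h52

open Matrix Filter Topology

theorem exists_pow_sub {A : Type*} [Ring A] {p : ℕ} {e t : A} (h : e * e = e + (p : A) * t)
    (hc : e * t = t * e) (k : ℕ) :
    ∃ u : A, e ^ p ^ k * e ^ p ^ k - e ^ p ^ k = (p : A) ^ (k + 1) * u := by
  have hcomm : ∀ a ∈ ({e, t} : Set A), ∀ b ∈ ({e, t} : Set A), a * b = b * a := by
    intro a ha b hb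
    simp only [Set.mem_insert_iff, Set.mem_singleton_iff] at ha hb
    rcases ha with rfl | rfl <;> rcases hb with rfl | rfl
    · rfl
    · exact hc
    · exact hc.symm
    · rfl
  letI : CommRing (Subring.closure ({e, t} : Set A)) := Subring.closureCommRingOfComm hcomm
  have he : e ∈ Subring.closure ({e, t} : Set A) := Subring.subset_closure (by simp)
  have ht : t ∈ Subring.closure ({e, t} : Set A) := Subring.subset_closure (by simp)
  have hd : (p : Subring.closure ({e, t} : Set A)) ∣ (⟨e, he⟩ * ⟨e, he⟩ - ⟨e, he⟩) := by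
    refine ⟨⟨t, ht⟩, Subtype.ext ?_⟩
    change e * e - e = ((p : Subring.closure ({e, t} : Set A)) : A) * t
    rw [h]
    have : ((p : Subring.closure ({e, t} : Set A)) : A) = (p : A) := rfl
    rw [this]
    abel
  obtain ⟨u, hu⟩ := dvd_sub_pow_of_dvd_sub hd k
  refine ⟨(u : A), ?_⟩
  have h2 := congrArg (Subtype.val : Subring.closure ({e, t} : Set A) → A) hu
  have h3 : (e * e) ^ p ^ k - e ^ p ^ k = (p : A) ^ (k + 1) * (u : A) := h2
  have h4 : (e * e) ^ p ^ k = e ^ p ^ k * e ^ p ^ k := (Commute.refl e).mul_pow _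
  rw [← h4]
  exact h3

/-- lifting of idempotents -/
theorem exists_lift_idempotent {Om : Type*} [Fintype Om] [DecidableEq Om] {H : Type*} [Group H]
    [MulAction H Om] (p : ℕ) [hp : Fact p.Prime] (ε : Matrix Om Om (ZMod p)) (hε : ε * ε = ε)
    (hH : ∀ (h : H) (i j : Om), ε (h • i) (h • j) = ε i j) :
    ∃ E : Matrix Om Om ℤ_[p], E * E = E ∧ (∀ (h : H) (i j : Om), E (h • i) (h • j) = E i j) ∧
      E.map (PadicInt.toZMod (p := p)) = ε := by
  have hs : Function.Surjective (PadicInt.toZMod (p := p)) := ZMod.ringHom_surjective _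
  choose s hs' using hs
  obtain ⟨E0, hE0⟩ : ∃ E0 : Matrix Om Om ℤ_[p], E0 = ε.map s := ⟨_, rfl⟩
  have hred : E0.map (PadicInt.toZMod (p := p)) = ε := by
    rw [hE0]
    ext i j
    simp [hs']
  have hker : ∀ x : ℤ_[p], PadicInt.toZMod x = 0 → (p : ℤ_[p]) ∣ x := by
    intro x hx
    have h1 : x ∈ RingHom.ker (PadicInt.toZMod : ℤ_[p] →+* ZMod p) := hx
    rw [PadicInt.ker_toZMod, PadicInt.maximalIdeal_eq_span_p, Ideal.mem_span_singleton] at h1
    exact h1
  have hdiv : ∀ i j, (p : ℤ_[p]) ∣ (E0 * E0 - E0) i j := by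
    intro i j
    apply hker
    have h1 : (E0 * E0 - E0).map (PadicInt.toZMod (p := p)) = 0 := by
      have h2 : (E0 * E0 - E0).map (PadicInt.toZMod (p := p)) =
          (E0 * E0).map (PadicInt.toZMod (p := p)) - E0.map (PadicInt.toZMod (p := p)) := by
        ext i j
        rw [Matrix.map_apply, Matrix.sub_apply, Matrix.sub_apply, Matrix.map_apply,
          Matrix.map_apply, map_sub]
      rw [h2, Matrix.map_mul, hred, hε, sub_self]
    exact congrFun (congrFun h1 i) j
  choose t ht using hdiv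
  obtain ⟨T, hT⟩ : ∃ T : Matrix Om Om ℤ_[p], T = Matrix.of t := ⟨_, rfl⟩
  have hpT : ∀ B : Matrix Om Om ℤ_[p], ((p : Matrix Om Om ℤ_[p])) * B = (p : ℤ_[p]) • B := by
    intro B
    rw [← nsmul_eq_mul, Nat.cast_smul_eq_nsmul]
  have h1 : E0 * E0 = E0 + ((p : Matrix Om Om ℤ_[p])) * T := by
    rw [hpT]
    ext i j
    have h2 := ht i j
    rw [Matrix.sub_apply] at h2
    rw [Matrix.add_apply, Matrix.smul_apply, smul_eq_mul, hT, Matrix.of_apply, ← h2]
    ring
  have hp0 : (p : ℤ_[p]) ≠ 0 := by exact_mod_cast hp.out.ne_zero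
  have h2 : E0 * T = T * E0 := by
    have h3 : (p : ℤ_[p]) • (E0 * T) = (p : ℤ_[p]) • (T * E0) := by
      have h4 : (p : ℤ_[p]) • T = E0 * E0 - E0 := by
        rw [h1, hpT, add_sub_cancel_left]
      rw [← Matrix.mul_smul, ← Matrix.smul_mul, h4, mul_sub, sub_mul, mul_assoc]
    ext i j
    have h4 := congrFun (congrFun h3 i) j
    rw [Matrix.smul_apply, Matrix.smul_apply, smul_eq_mul, smul_eq_mul] at h4
    exact mul_left_cancel₀ hp0 h4
  choose u hu using fun k => exists_pow_sub h1 h2 k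
  have hnorm : ∀ k i j, ‖(E0 ^ p ^ k * E0 ^ p ^ k - E0 ^ p ^ k) i j‖ ≤ ((p : ℝ)⁻¹) ^ (k + 1) := by
    intro k i j
    have h3 : (E0 ^ p ^ k * E0 ^ p ^ k - E0 ^ p ^ k) i j = (p : ℤ_[p]) ^ (k + 1) * u k i j := by
      rw [hu k, ← Nat.cast_pow, ← nsmul_eq_mul, Matrix.smul_apply, nsmul_eq_mul, Nat.cast_pow]
    rw [h3, norm_mul, norm_pow, PadicInt.norm_p]
    exact mul_le_of_le_one_right (by positivity) (PadicInt.norm_le_one _)
  -- powers are invariant
  have hinv0 : ∀ (h : H) (i j : Om), E0 (h • i) (h • j) = E0 i j := by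
    intro h i j
    rw [hE0, Matrix.map_apply, Matrix.map_apply, hH]
  have hinv : ∀ (n : ℕ) (h : H) (i j : Om), (E0 ^ n) (h • i) (h • j) = (E0 ^ n) i j := by
    intro n
    induction n with
    | zero =>
      intro h i j
      rw [pow_zero, Matrix.one_apply, Matrix.one_apply]
      by_cases hij : i = j
      · rw [if_pos hij, if_pos (by rw [hij])]
      · rw [if_neg hij, if_neg (fun h' => hij (MulAction.injective h h'))]
    | succ n ih =>
      intro h i j
      rw [pow_succ, Matrix.mul_apply, Matrix.mul_apply]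
      rw [← Equiv.sum_comp (MulAction.toPerm h)]
      refine Finset.sum_congr rfl fun x _ => ?_
      rw [MulAction.toPerm_apply, ih, hinv0]
  -- powers reduce to `ε`
  have hredn : ∀ k, (E0 ^ p ^ k).map (PadicInt.toZMod (p := p)) = ε := by
    intro k
    have h3 : (E0 ^ p ^ k).map (PadicInt.toZMod (p := p)) = ε ^ p ^ k := by
      have h4 := map_pow (RingHom.mapMatrix (m := Om) (PadicInt.toZMod (p := p))) E0 (p ^ k)
      rw [RingHom.mapMatrix_apply, RingHom.mapMatrix_apply, hred] at h4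
      exact h4
    rw [h3]
    exact IsIdempotentElem.pow_eq hε (pow_ne_zero _ hp.out.ne_zero)
  obtain ⟨E, φ, hφ, hlim⟩ := CompactSpace.tendsto_subseq
    (fun k => (fun i j => (E0 ^ p ^ k) i j : Om → Om → ℤ_[p]))
  have hij : ∀ i j, Tendsto (fun n => (E0 ^ p ^ φ n) i j) atTop (𝓝 (E i j)) := fun i j =>
    (tendsto_pi_nhds.1 ((tendsto_pi_nhds.1 hlim) i)) j
  have hE : Matrix.of E * Matrix.of E = Matrix.of E := by
    ext i j
    have h3 : Tendsto (fun n => (E0 ^ p ^ φ n * E0 ^ p ^ φ n - E0 ^ p ^ φ n) i j) atTop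
        (𝓝 ((Matrix.of E * Matrix.of E - Matrix.of E) i j)) := by
      simp only [Matrix.sub_apply, Matrix.mul_apply, Matrix.of_apply]
      exact (tendsto_finsetSum _ fun x _ => (hij i x).mul (hij x j)).sub (hij i j)
    have h4 : Tendsto (fun n => (E0 ^ p ^ φ n * E0 ^ p ^ φ n - E0 ^ p ^ φ n) i j) atTop
        (𝓝 0) := by
      rw [tendsto_zero_iff_norm_tendsto_zero]
      refine squeeze_zero (fun _ => norm_nonneg _) (fun n => hnorm (φ n) i j) ?_
      have h5 : Tendsto (fun n : ℕ => ((p : ℝ)⁻¹) ^ (n + 1)) atTop (𝓝 0) := by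
        have h6 : (1 : ℝ) < p := by exact_mod_cast hp.out.one_lt
        exact (tendsto_pow_atTop_nhds_zero_of_lt_one (by positivity)
          (inv_lt_one_of_one_lt₀ h6)).comp (tendsto_add_atTop_nat 1)
      exact h5.comp hφ.tendsto_atTop
    have h5 := tendsto_nhds_unique h3 h4
    rw [Matrix.sub_apply, sub_eq_zero] at h5
    exact h5
  refine ⟨Matrix.of E, hE, fun h i j => ?_, ?_⟩
  · rw [Matrix.of_apply, Matrix.of_apply]
    have h3 := hij (h • i) (h • j)
    simp only [hinv] at h3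
    exact tendsto_nhds_unique h3 (hij i j)
  · ext i j
    rw [Matrix.map_apply, Matrix.of_apply]
    obtain ⟨n, hn⟩ := (Metric.tendsto_atTop.1 (hij i j) 1 one_pos)
    have h3 := hn n le_rfl
    rw [dist_eq_norm, PadicInt.norm_lt_one_iff_dvd] at h3
    have h4 : PadicInt.toZMod ((E0 ^ p ^ φ n) i j - E i j) = 0 := by
      obtain ⟨c, hc⟩ := h3
      rw [hc, map_mul, map_natCast, CharP.cast_eq_zero, zero_mul]
    rw [map_sub, sub_eq_zero] at h4
    rw [← h4]
    exact congrFun (congrFun (hredn (φ n)) i) j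

end Pool.Agent.W_0649d4_h52
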