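import Mathlib

/-!
# The rank of the reduction modulo `p` is at most the rank in characteristic zero
-/

set_option autoImplicit false

namespace Pool.Agent.W_0649d4_h52

open Matrix

theorem exists_mul_mul_eq_one {K m n : Type*} [Field K] [Fintype m] [Fintype n] [DecidableEq m]
    [DecidableEq n] (A : Matrix m n K) :
    ∃ (X : Matrix (Fin A.rank) m K) (Y : Matrix n (Fin A.rank) K), X * A * Y = 1 := by
  obtain ⟨W, hW⟩ : ∃ W, W = LinearMap.range A.mulVecLin := ⟨_, rfl⟩
  have hr : Module.finrank K W = A.rank := by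
    rw [hW]
    rfl
  let b : Module.Basis (Fin A.rank) K W := Module.finBasisOfFinrankEq K W hr
  have hb : ∀ j, ∃ y : n → K, A.mulVec y = (b j : m → K) := by
    intro j
    have h := (b j).2
    have h2 : ((b j : W) : m → K) ∈ LinearMap.range A.mulVecLin := by
      rw [← hW]
      exact h
    obtain ⟨y, hy⟩ := h2
    exact ⟨y, by rw [← hy, mulVecLin_apply]⟩
  choose y hy using hb
  have hli : LinearIndependent K (fun j => ((b j : W) : m → K)) :=
    b.linearIndependent.map' W.subtype (Submodule.ker_subtype W)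
  obtain ⟨g, hg⟩ : ∃ g : (m → K) →ₗ[K] (Fin A.rank → K),
      ∀ j, g (b j : m → K) = Pi.single j 1 := by
    obtain ⟨g, hg⟩ := LinearMap.exists_leftInverse_of_injective
      (Fintype.linearCombination K (fun j => ((b j : W) : m → K)))
      (LinearMap.ker_eq_bot.2 hli.fintypeLinearCombination_injective)
    refine ⟨g, fun j => ?_⟩
    have h := LinearMap.congr_fun hg (Pi.single j 1)
    simpa [Fintype.linearCombination_apply_single] using h
  refine ⟨LinearMap.toMatrix' g, Matrix.of fun i j => y j i, ?_⟩
  ext i j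
  have h1 : ∀ k, (A * Matrix.of fun i j => y j i) k j = (b j : m → K) k := by
    intro k
    rw [← hy j]
    rfl
  rw [Matrix.mul_assoc, Matrix.mul_apply]
  simp only [h1]
  have h2 : (LinearMap.toMatrix' g).mulVec (b j : m → K) = Pi.single j 1 := by
    rw [LinearMap.toMatrix'_mulVec, hg]
  have h3 := congrFun h2 i
  rw [Matrix.mulVec, dotProduct] at h3
  rw [h3, Matrix.one_apply, Pi.single_apply]

/-- the rank of the reduction is at most the rank of the image in characteristic zero -/
theorem rank_toZMod_le {m n : Type*} [Fintype m] [Fintype n] [DecidableEq m] [DecidableEq n]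
    (p : ℕ) [Fact p.Prime] {L : Type*} [Field L] (σ : ℤ_[p] →+* L) (hσ : Function.Injective σ)
    (A : Matrix m n ℤ_[p]) :
    (A.map (PadicInt.toZMod (p := p))).rank ≤ (A.map σ).rank := by
  obtain ⟨X, Y, hXY⟩ := exists_mul_mul_eq_one (A.map (PadicInt.toZMod (p := p)))
  have hs : Function.Surjective (PadicInt.toZMod (p := p)) := ZMod.ringHom_surjective _
  choose s hs' using hs
  obtain ⟨r, hr⟩ : ∃ r, r = (A.map (PadicInt.toZMod (p := p))).rank := ⟨_, rfl⟩
  have hX : (X.map s).map (PadicInt.toZMod (p := p)) = X := by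
    ext i j
    simp [hs']
  have hY : (Y.map s).map (PadicInt.toZMod (p := p)) = Y := by
    ext i j
    simp [hs']
  have h1 : ((X.map s) * A * (Y.map s)).map (PadicInt.toZMod (p := p)) = 1 := by
    rw [Matrix.map_mul, Matrix.map_mul, hX, hY, hXY]
  have h2 : PadicInt.toZMod ((X.map s) * A * (Y.map s)).det = 1 := by
    have := RingHom.map_det (PadicInt.toZMod (p := p)) ((X.map s) * A * (Y.map s))
    rw [this, RingHom.mapMatrix_apply, h1, det_one]
  have h3 : ((X.map s) * A * (Y.map s)).det ≠ 0 := by
    intro h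
    rw [h, map_zero] at h2
    exact zero_ne_one h2
  have h4 : (((X.map s) * A * (Y.map s)).map σ).det ≠ 0 := by
    have := RingHom.map_det σ ((X.map s) * A * (Y.map s))
    rw [RingHom.mapMatrix_apply] at this
    rw [← this]
    intro h
    exact h3 (hσ (by rw [h, map_zero]))
  have h5 : (((X.map s) * A * (Y.map s)).map σ).rank =
      (A.map (PadicInt.toZMod (p := p))).rank := by
    rw [rank_of_isUnit _ ((Matrix.isUnit_iff_isUnit_det _).2 (isUnit_iff_ne_zero.2 h4)),
      Fintype.card_fin]
  rw [← h5, Matrix.map_mul, Matrix.map_mul]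
  exact (rank_mul_le_left _ _).trans (rank_mul_le_right _ _)

end Pool.Agent.W_0649d4_h52
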