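import Mathlib

/-!
# The field of `p`-adic numbers embeds into the complex numbers
-/

set_option autoImplicit false

namespace Pool.Agent.W_0649d4_h52

open Cardinal

theorem ZpC_mk_padic (p : ℕ) [Fact p.Prime] : #ℚ_[p] = 𝔠 := by
  apply le_antisymm
  · have h1 : #ℚ_[p] ≤ #(CauSeq ℚ (padicNorm p)) := Cardinal.mk_quotient_le
    have h2 : #(CauSeq ℚ (padicNorm p)) ≤ #(ℕ → ℚ) := Cardinal.mk_subtype_le _
    have h3 : #(ℕ → ℚ) = 𝔠 := by
      rw [← Cardinal.power_def, Cardinal.mkRat, Cardinal.mk_nat, Cardinal.aleph0_power_aleph0]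
    exact h1.trans (h2.trans h3.le)
  · exact continuum_le_cardinal_of_nontriviallyNormedField ℚ_[p]

theorem exists_ringHom_padic (p : ℕ) [Fact p.Prime] : Nonempty (ℚ_[p] →+* ℂ) := by
  have h1 : #(AlgebraicClosure ℚ_[p]) = 𝔠 := by
    apply le_antisymm
    · refine (Algebra.IsAlgebraic.cardinalMk_le_max ℚ_[p] (AlgebraicClosure ℚ_[p])).trans ?_
      rw [ZpC_mk_padic]
      exact max_le le_rfl Cardinal.aleph0_le_continuum
    · rw [← ZpC_mk_padic p]
      exact Cardinal.mk_le_of_injective (algebraMap ℚ_[p] (AlgebraicClosure ℚ_[p])).injective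
  have h2 : Nonempty (AlgebraicClosure ℚ_[p] ≃ ℂ) := by
    rw [← Cardinal.eq, h1, Cardinal.mk_complex]
  have : CharZero (AlgebraicClosure ℚ_[p]) :=
    charZero_of_injective_algebraMap (algebraMap ℚ_[p] (AlgebraicClosure ℚ_[p])).injective
  obtain ⟨e⟩ := IsAlgClosed.ringEquiv_of_equiv_of_charZero (K := AlgebraicClosure ℚ_[p])
    (L := ℂ) (by rw [h1]; exact Cardinal.aleph0_lt_continuum) h2
  exact ⟨(e : AlgebraicClosure ℚ_[p] →+* ℂ).comp (algebraMap ℚ_[p] (AlgebraicClosure ℚ_[p]))⟩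

/-- the ring of `p`-adic integers embeds into the complex numbers -/
theorem exists_ringHom_padicInt (p : ℕ) [Fact p.Prime] :
    ∃ σ : ℤ_[p] →+* ℂ, Function.Injective σ := by
  obtain ⟨e⟩ := exists_ringHom_padic p
  exact ⟨e.comp PadicInt.Coe.ringHom, e.injective.comp Subtype.val_injective⟩

end Pool.Agent.W_0649d4_h52
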